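import Pool.Agent.Helper6.LVarP

/-!
# Products of one-based varieties of lattice-ordered groups need not be finitely axiomatizable

The lattice-ordered groups `GN n` of the library `Pool.Agent.Helper6.LVar` are not in the product
of the variety of weakly abelian `ℓ`-groups and the variety defined by `w = 1`. Every reduced product
of the `GN n` over a filter finer than the Fréchet filter is in this product. For an ultraproduct,
Łoś' theorem shows that no finite set of first-order sentences defines the product.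
-/

set_option autoImplicit false
set_option linter.unusedSectionVars false
set_option linter.style.haveILetI false

open FirstOrder Filter

namespace Pool.Agent.Results.MP_7f0386_al.NotFirstOrder

open Pool.Agent.Helper6.LVar

/-- The function symbols of the language of lattice-ordered groups. -/
inductive LFunc : ℕ → Type
  | one : LFunc 0
  | inv : LFunc 1
  | mul : LFunc 2
  | sup : LFunc 2
  | inf : LFunc 2

/-- The first-order language of lattice-ordered groups: `1`, `⁻¹`, `*`, `⊔`, `⊓` (the order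
`x ≤ y` is expressed by `x ⊔ y = y`). -/
def LLang : Language := ⟨LFunc, fun _ => Empty⟩

/-- The interpretation of the function symbols. -/
def lfun (G : Type) [Group G] [Lattice G] : ∀ n : ℕ, LFunc n → (Fin n → G) → G
  | _, .one, _ => 1
  | _, .inv, x => (x 0)⁻¹
  | _, .mul, x => x 0 * x 1
  | _, .sup, x => x 0 ⊔ x 1
  | _, .inf, x => x 0 ⊓ x 1

/-- A lattice-ordered group as a structure. -/
def lstr (G : Type) [Group G] [Lattice G] : LLang.Structure G where
  funMap {n} f x := lfun G n f x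
  RelMap {_} r _ := r.elim

/-- The first-order sentence `φ` is true in `G`. -/
def TrueIn (G : Type) [Group G] [Lattice G] (φ : LLang.Sentence) : Prop :=
  @Language.Sentence.Realize LLang G (lstr G) φ

section Reduced

variable (F : Filter ℕ)

/-- Elements which are trivial on a set of the filter. -/
def NF : Subgroup P where
  carrier := {x | ∀ᶠ n in F, x n = 1}
  mul_mem' := by
    intro x y hx hy
    filter_upwards [hx, hy] with n h1 h2
    rw [Pi.mul_apply, h1, h2, one_mul]
  one_mem' := Filter.Eventually.of_forall fun _ => rfl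
  inv_mem' := by
    intro x hx
    filter_upwards [hx] with n h1
    rw [Pi.inv_apply, h1, inv_one]

theorem mem_NF (x : P) : x ∈ NF F ↔ ∀ᶠ n in F, x n = 1 := Iff.rfl

theorem NF_ideal : IsLIdeal (NF F) := by
  refine ⟨⟨?_⟩, ?_, ?_, ?_⟩
  · intro x hx g
    rw [mem_NF] at hx ⊢
    filter_upwards [hx] with n h1
    rw [Pi.mul_apply, Pi.mul_apply, Pi.inv_apply, h1, mul_one, mul_inv_cancel]
  · intro x hx y hy
    rw [mem_NF] at hx hy ⊢
    filter_upwards [hx, hy] with n h1 h2
    rw [Pi.sup_apply, h1, h2, sup_idem]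
  · intro x hx y hy
    rw [mem_NF] at hx hy ⊢
    filter_upwards [hx, hy] with n h1 h2
    rw [Pi.inf_apply, h1, h2, inf_idem]
  · intro x hx y hy g hxg hgy
    rw [mem_NF] at hx hy ⊢
    filter_upwards [hx, hy] with n h1 h2
    exact le_antisymm (h2 ▸ hgy n) (h1 ▸ hxg n)

instance : (NF F).Normal := (NF_ideal F).normal

/-- Elements which are, on a set of the filter, in a bounded part of the center, modulo the second
component. -/
def NB : Subgroup P where
  carrier := {x | ∃ J : ℕ, ∀ᶠ n in F, bdd J (x n).q}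
  mul_mem' := by
    rintro x y ⟨J, hx⟩ ⟨J', hy⟩
    refine ⟨J + J', ?_⟩
    filter_upwards [hx, hy] with n h1 h2
    exact bdd_mul h1 h2
  one_mem' := ⟨0, Filter.Eventually.of_forall fun _ => ⟨rfl, rfl, rfl, rfl, by
    rw [Pi.one_apply, GN.one_q, Q.one_c]; simp⟩⟩
  inv_mem' := by
    rintro x ⟨J, hx⟩
    refine ⟨J, ?_⟩
    filter_upwards [hx] with n h1
    exact bdd_inv h1

theorem mem_NB (x : P) : x ∈ NB F ↔ ∃ J : ℕ, ∀ᶠ n in F, bdd J (x n).q := Iff.rfl

theorem NB_ideal : IsLIdeal (NB F) := by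
  refine ⟨⟨?_⟩, ?_, ?_, ?_⟩
  · rintro x ⟨J, hx⟩ g
    refine ⟨J, ?_⟩
    filter_upwards [hx] with n h1
    rw [Pi.mul_apply, Pi.mul_apply, Pi.inv_apply, GN.mul_q, GN.mul_q, GN.inv_q, bdd_conj h1]
    exact h1
  · rintro x ⟨J, hx⟩ y ⟨J', hy⟩
    refine ⟨max J J', ?_⟩
    filter_upwards [hx, hy] with n h1 h2
    rw [Pi.sup_apply, GN.sup_q]
    rcases le_total (x n).q (y n).q with h | h
    · rw [sup_eq_right.mpr h]; exact bdd_mono (le_max_right _ _) h2
    · rw [sup_eq_left.mpr h]; exact bdd_mono (le_max_left _ _) h1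
  · rintro x ⟨J, hx⟩ y ⟨J', hy⟩
    refine ⟨max J J', ?_⟩
    filter_upwards [hx, hy] with n h1 h2
    rw [Pi.inf_apply, GN.inf_q]
    rcases le_total (x n).q (y n).q with h | h
    · rw [inf_eq_left.mpr h]; exact bdd_mono (le_max_left _ _) h1
    · rw [inf_eq_right.mpr h]; exact bdd_mono (le_max_right _ _) h2
  · rintro x ⟨J, hx⟩ y ⟨J', hy⟩ g hxg hgy
    refine ⟨max J J', ?_⟩
    filter_upwards [hx, hy] with n h1 h2
    exact bdd_convex (bdd_mono (le_max_left _ _) h1) (bdd_mono (le_max_right _ _) h2)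
      (GN.le_q (hxg n)) (GN.le_q (hgy n))

theorem wval_mem_NB (s t c d : P) : wval s t c d ∈ NB F := by
  refine ⟨1, Filter.Eventually.of_forall fun n => ?_⟩
  have e := wval_hom (Pi.evalMonoidHom GN n) (fun _ _ => rfl) (fun _ _ => rfl) s t c d
  simp only [Pi.evalMonoidHom_apply] at e
  rw [← e, GN.χ_wval]
  have h1 : bdd 1 (1 : Q) := ⟨rfl, rfl, rfl, rfl, by simp⟩
  have h2 : bdd 1 Q.z := ⟨rfl, rfl, rfl, rfl, by simp [Q.z]⟩
  have h3 := one_le_wval_Q (s n).q (t n).q (c n).q (d n).q
  have h4 := wval_Q_le (s n).q (t n).q (c n).q (d n).q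
  generalize wval (s n).q (t n).q (c n).q (d n).q = g at h3 h4 ⊢
  exact bdd_convex h1 h2 h3 h4

/-- The reduced product is in the product variety. -/
theorem reduced_inProduct (hF : F ≤ atTop) :
    letI := quotLattice (NF F) (NF_ideal F)
    InProduct {weakAb} {wOne} (P ⧸ NF F) := by
  letI : Lattice (P ⧸ NF F) := quotLattice (NF F) (NF_ideal F)
  haveI : MulLeftMono (P ⧸ NF F) := quotLattice_mulLeftMono (NF F) (NF_ideal F)
  haveI : MulRightMono (P ⧸ NF F) := quotLattice_mulRightMono (NF F) (NF_ideal F)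
  have hN := IsLIdeal.map_quot (NF F) (NB F) (NF_ideal F) (NB_ideal F)
  haveI hn := hN.normal
  letI : Lattice ((P ⧸ NF F) ⧸ ((NB F).map (QuotientGroup.mk' (NF F)))) := quotLattice _ hN
  refine ⟨(NB F).map (QuotientGroup.mk' (NF F)), hn, hN, ?_, quotLattice _ hN, fun _ _ => rfl,
    fun _ _ => rfl, ?_⟩
  · intro e he v hv
    rw [Set.mem_singleton_iff] at he
    subst he
    rw [weakAb_iff]
    obtain ⟨x, hx, hx'⟩ := hv 0
    obtain ⟨y, hy, hy'⟩ := hv 1
    rw [← hx', ← hy', ← sup_eq_right]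
    change QuotientGroup.mk' (NF F) ((x⁻¹ * (y ⊔ 1) * x) ⊔ ((y ⊔ 1) * (y ⊔ 1))) =
      QuotientGroup.mk' (NF F) ((y ⊔ 1) * (y ⊔ 1))
    apply QuotientGroup.eq.mpr
    rw [mem_NF]
    obtain ⟨J, hJ⟩ := hx
    obtain ⟨J', hJ'⟩ := hy
    filter_upwards [hJ, hJ', (lam_pow_le (max J J')).filter_mono hF] with n h1 h2 h3
    have h := weak_GN h3 (bdd_mono (le_max_left _ _) h1) (bdd_mono (le_max_right _ _) h2)
    rw [← sup_eq_right] at h
    have e : ((x⁻¹ * (y ⊔ 1) * x) ⊔ ((y ⊔ 1) * (y ⊔ 1))) n =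
      ((x n)⁻¹ * (y n ⊔ 1) * (x n)) ⊔ ((y n ⊔ 1) * (y n ⊔ 1)) := rfl
    rw [Pi.mul_apply, Pi.inv_apply, e, h]
    change ((y n ⊔ 1) * (y n ⊔ 1))⁻¹ * ((y n ⊔ 1) * (y n ⊔ 1)) = 1
    rw [inv_mul_cancel]
  · intro e he v
    rw [Set.mem_singleton_iff] at he
    subst he
    rw [wOne_iff]
    obtain ⟨s, hs⟩ := QuotientGroup.mk'_surjective _ (v 0)
    obtain ⟨t, ht⟩ := QuotientGroup.mk'_surjective _ (v 1)
    obtain ⟨c, hc⟩ := QuotientGroup.mk'_surjective _ (v 2)
    obtain ⟨d, hd⟩ := QuotientGroup.mk'_surjective _ (v 3)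
    obtain ⟨s, rfl⟩ := QuotientGroup.mk'_surjective _ s
    obtain ⟨t, rfl⟩ := QuotientGroup.mk'_surjective _ t
    obtain ⟨c, rfl⟩ := QuotientGroup.mk'_surjective _ c
    obtain ⟨d, rfl⟩ := QuotientGroup.mk'_surjective _ d
    rw [← hs, ← ht, ← hc, ← hd]
    rw [wval_hom (QuotientGroup.mk' ((NB F).map (QuotientGroup.mk' (NF F)))) (fun _ _ => rfl)
      (fun _ _ => rfl)]
    rw [wval_hom (QuotientGroup.mk' (NF F)) (fun _ _ => rfl) (fun _ _ => rfl)]
    apply (QuotientGroup.eq_one_iff _).mpr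
    exact ⟨_, wval_mem_NB F s t c d, rfl⟩

end Reduced

section Los

variable (u : Ultrafilter ℕ)

/-- Łoś' theorem for the ultraproduct `P ⧸ NF u` of the `GN n`. -/
theorem los (φ : LLang.Sentence) :
    (letI := quotLattice (NF u) (NF_ideal u); TrueIn (P ⧸ NF (u : Filter ℕ)) φ) ↔
      ∀ᶠ n in (u : Filter ℕ), TrueIn (GN n) φ := by
  letI : Lattice (P ⧸ NF (u : Filter ℕ)) := quotLattice (NF u) (NF_ideal u)
  letI i1 : ∀ n, LLang.Structure (GN n) := fun n => lstr (GN n)
  letI i2 : LLang.Structure (P ⧸ NF (u : Filter ℕ)) := lstr (P ⧸ NF (u : Filter ℕ))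
  letI i3 : LLang.Structure ((u : Filter ℕ).Product GN) := Language.Ultraproduct.structure
  let e0 : (u : Filter ℕ).Product GN → P ⧸ NF (u : Filter ℕ) :=
    Quotient.lift (fun f : P => QuotientGroup.mk' (NF (u : Filter ℕ)) f) (by
      intro f g h
      apply QuotientGroup.eq.mpr
      rw [mem_NF]
      have h' : ∀ᶠ n in (u : Filter ℕ), f n = g n := h
      filter_upwards [h'] with n hn
      rw [Pi.mul_apply, Pi.inv_apply, hn, inv_mul_cancel])
  have he0 : ∀ f : P, e0 (Quotient.mk _ f) = QuotientGroup.mk' (NF (u : Filter ℕ)) f :=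
    fun _ => rfl
  have hbij : Function.Bijective e0 := by
    constructor
    · intro x y
      obtain ⟨f, rfl⟩ := Quotient.exists_rep x
      obtain ⟨g, rfl⟩ := Quotient.exists_rep y
      intro h
      rw [he0, he0] at h
      have h1 := QuotientGroup.eq.mp h
      rw [mem_NF] at h1
      apply Quotient.sound
      change ∀ᶠ n in (u : Filter ℕ), f n = g n
      filter_upwards [h1] with n hn
      rw [Pi.mul_apply, Pi.inv_apply, inv_mul_eq_one] at hn
      exact hn
    · intro x
      obtain ⟨f, rfl⟩ := QuotientGroup.mk'_surjective _ x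
      exact ⟨Quotient.mk _ f, rfl⟩
  have hfun : ∀ (n : ℕ) (f : LLang.Functions n) (x : Fin n → (u : Filter ℕ).Product GN),
      e0 (Language.Structure.funMap f x) = Language.Structure.funMap f (e0 ∘ x) := by
    intro n f x
    choose y hy using fun i => Quotient.exists_rep (x i)
    have hx : x = fun i => (Quotient.mk _ (y i) : (u : Filter ℕ).Product GN) :=
      funext fun i => (hy i).symm
    subst hx
    have h1 := Language.Ultraproduct.funMap_cast (L := LLang) (M := GN) (u := u) f y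
    refine (congrArg e0 h1).trans ?_
    cases f with
    | one => rfl
    | inv => rfl
    | mul => rfl
    | sup => rfl
    | inf => rfl
  let e : (u : Filter ℕ).Product GN ≃[LLang] (P ⧸ NF (u : Filter ℕ)) :=
    { toEquiv := Equiv.ofBijective e0 hbij
      map_fun' := fun {n} f x => hfun n f x
      map_rel' := fun {n} r x => r.elim }
  have h1 := Language.Ultraproduct.sentence_realize (L := LLang) (M := GN) (u := u) φ
  have h2 := Language.StrongHomClass.realize_sentence e φ
  exact h2.symm.trans h1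

end Los

/-- **Products of varieties of `ℓ`-groups which are defined by a single identity need not be
finitely axiomatizable in first-order logic.** There are `ℓ`-group identities `e₁`, `e₂` such that
the class of all `ℓ`-groups that have an `ℓ`-ideal `N` with `N ⊨ e₁` and `G ⧸ N ⊨ e₂` is not
defined by any finite set of `ℓ`-group identities, and not even by any finite set of first-order
sentences of the language of `ℓ`-groups. -/
theorem result : ∃ e₁ e₂ : LTerm × LTerm,
    (¬ ∃ E : Set (LTerm × LTerm), E.Finite ∧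
      ∀ (G : Type) [Group G] [Lattice G] [MulLeftMono G] [MulRightMono G],
        Satisfies E G ↔ InProduct {e₁} {e₂} G) ∧
    ¬ ∃ Φ : Set LLang.Sentence, Φ.Finite ∧
      ∀ (G : Type) [Group G] [Lattice G] [MulLeftMono G] [MulRightMono G],
        (∀ φ ∈ Φ, TrueIn G φ) ↔ InProduct {e₁} {e₂} G := by
  refine ⟨weakAb, wOne, ?_, ?_⟩
  · rintro ⟨E, hE, h⟩
    letI : Lattice (P ⧸ N1) := quotLattice N1 N1_ideal
    haveI : MulLeftMono (P ⧸ N1) := quotLattice_mulLeftMono N1 N1_ideal
    haveI : MulRightMono (P ⧸ N1) := quotLattice_mulRightMono N1 N1_ideal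
    have h1 : Satisfies E (P ⧸ N1) := (h (P ⧸ N1)).mpr Ginf_inProduct
    have h2 : ∀ e ∈ E, ∀ᶠ n in atTop, Satisfies {e} (GN n) := by
      intro e he
      apply eventually_of_Ginf
      intro e' he' v
      rw [Set.mem_singleton_iff] at he'
      subst he'
      exact h1 e' he v
    have h3 : ∀ᶠ n in atTop, ∀ e ∈ E, Satisfies {e} (GN n) :=
      (Filter.eventually_all_finite hE).mpr h2
    obtain ⟨n, hn⟩ := h3.exists
    apply GN_not_inProduct n
    rw [← h]
    intro e he v
    exact hn e he e rfl v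
  · rintro ⟨Φ, hΦ, h⟩
    let u : Ultrafilter ℕ := Filter.hyperfilter ℕ
    have hu : (u : Filter ℕ) ≤ atTop := Nat.hyperfilter_le_atTop
    letI : Lattice (P ⧸ NF (u : Filter ℕ)) := quotLattice (NF u) (NF_ideal u)
    haveI : MulLeftMono (P ⧸ NF (u : Filter ℕ)) := quotLattice_mulLeftMono (NF u) (NF_ideal u)
    haveI : MulRightMono (P ⧸ NF (u : Filter ℕ)) := quotLattice_mulRightMono (NF u) (NF_ideal u)
    have h1 := (h (P ⧸ NF (u : Filter ℕ))).mpr (reduced_inProduct (u : Filter ℕ) hu)
    have h2 : ∀ φ ∈ Φ, ∀ᶠ n in (u : Filter ℕ), TrueIn (GN n) φ := fun φ hφ =>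
      (los u φ).1 (h1 φ hφ)
    have h3 : ∀ᶠ n in (u : Filter ℕ), ∀ φ ∈ Φ, TrueIn (GN n) φ :=
      (Filter.eventually_all_finite hΦ).mpr h2
    obtain ⟨n, hn⟩ := h3.exists
    exact GN_not_inProduct n ((h (GN n)).1 hn)

end Pool.Agent.Results.MP_7f0386_al.NotFirstOrder
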